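import Pool.Agent.W732.Ud.Stm3

/-!
# UD2-SEPC: a dense sequence of data which are continuous up to the boundary
-/

set_option autoImplicit false

open Metric Set Filter Topology Complex

namespace Pool.Agent.W356.Ud.SepC

open Pool.Agent.W732.Ud
open Pool.Agent.W732.Cor (V mv tau)

/-- the radii -/
noncomputable def rr (k : ℕ) : ℝ := 1 - 1 / ((k : ℝ) + 2)

theorem rr_pos (k : ℕ) : 0 ≤ rr k := by
  unfold rr
  have h : (0 : ℝ) < (k : ℝ) + 2 := by positivity
  have hk : (0 : ℝ) ≤ (k : ℝ) := Nat.cast_nonneg k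
  rw [sub_nonneg, div_le_one h]
  linarith

theorem rr_lt (k : ℕ) : rr k < 1 := by
  unfold rr
  have h : (0 : ℝ) < 1 / ((k : ℝ) + 2) := by positivity
  linarith

theorem rr_lim : Tendsto rr atTop (𝓝 1) := by
  unfold rr
  have h1 : Tendsto (fun k : ℕ => (k : ℝ) + 2) atTop atTop :=
    tendsto_atTop_add_const_right _ _ tendsto_natCast_atTop_atTop
  have h2 : Tendsto (fun k : ℕ => 1 / ((k : ℝ) + 2)) atTop (𝓝 0) :=
    tendsto_const_nhds.div_atTop h1
  simpa using h2.const_sub 1

theorem norm_rr {m : ℕ} (k : ℕ) (z : V m) : ‖((rr k : ℝ) : ℂ) • z‖ = rr k * ‖z‖ := by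
  rw [norm_smul, Complex.norm_real, Real.norm_eq_abs, abs_of_nonneg (rr_pos k)]

theorem maps_closed {m : ℕ} (k : ℕ) (z : V m) (hz : z ∈ closedBall (0 : V m) 1) :
    ((rr k : ℝ) : ℂ) • z ∈ ball (0 : V m) 1 := by
  rw [mem_closedBall_zero_iff] at hz
  rw [mem_ball_zero_iff, norm_rr]
  calc rr k * ‖z‖ ≤ rr k * 1 := mul_le_mul_of_nonneg_left hz (rr_pos k)
    _ < 1 := by rw [mul_one]; exact rr_lt k

theorem main : S_sep → S_sepc := by
  intro hsep m N δ hex
  obtain ⟨hh, hD, hdense⟩ := hsep (V m) (ball 0 1) isOpen_ball N δ hex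
  have hcs : ∀ k : ℕ, Differentiable ℂ (fun z : V m => ((rr k : ℝ) : ℂ) • z) := fun k => by
    fun_prop
  refine ⟨fun k i z => hh k i (((rr k : ℝ) : ℂ) • z), ?_, ?_, ?_, ?_⟩
  · intro k
    refine ⟨fun i => ?_, fun i z hz => ?_, fun z hz => ?_⟩
    · refine ((hD k).hol i).comp (hcs k).differentiableOn ?_
      intro z hz
      exact maps_closed k z (ball_subset_closedBall hz)
    · exact (hD k).bd i _ (maps_closed k z (ball_subset_closedBall hz))
    · exact (hD k).low _ (maps_closed k z (ball_subset_closedBall hz))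
  · intro k i
    refine ((hD k).hol i).continuousOn.comp (hcs k).continuous.continuousOn ?_
    intro z hz
    exact maps_closed k z hz
  · intro k i z hz
    exact (hD k).bd i _ (maps_closed k z hz)
  · intro h hh0
    obtain ⟨s, hs, hlim⟩ := hdense h hh0
    refine ⟨s, hs, ?_⟩
    intro i K hK hKc
    -- a closed ball containing K
    obtain ⟨ρ, hρ1, hρK⟩ : ∃ ρ : ℝ, ρ < 1 ∧ K ⊆ closedBall (0 : V m) ρ := by
      rcases K.eq_empty_or_nonempty with h0 | hne
      · exact ⟨0, one_pos, by rw [h0]; exact empty_subset _⟩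
      · obtain ⟨x, hx, hmax⟩ := hKc.exists_isMaxOn hne continuous_norm.continuousOn
        refine ⟨‖x‖, ?_, ?_⟩
        · have := hK hx
          rwa [mem_ball_zero_iff] at this
        · intro y hy
          rw [mem_closedBall_zero_iff]
          exact hmax hy
    have hQsub : closedBall (0 : V m) ρ ⊆ ball 0 1 := closedBall_subset_ball hρ1
    have hQc : IsCompact (closedBall (0 : V m) ρ) := isCompact_closedBall 0 ρ
    have hU := hlim i _ hQsub hQc
    have huc : UniformContinuousOn (h i) (closedBall (0 : V m) ρ) :=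
      hQc.uniformContinuousOn_of_continuous ((hh0.hol i).continuousOn.mono hQsub)
    rw [Metric.tendstoUniformlyOn_iff] at hU ⊢
    rw [Metric.uniformContinuousOn_iff] at huc
    intro ε hε
    obtain ⟨η, hη, hη2⟩ := huc (ε / 2) (by linarith)
    have hr : ∀ᶠ n in atTop, 1 - rr (s n) < η := by
      have h1 : Tendsto (fun n => 1 - rr (s n)) atTop (𝓝 (1 - 1)) :=
        (rr_lim.comp hs.tendsto_atTop).const_sub 1
      rw [sub_self] at h1
      exact h1.eventually (gt_mem_nhds hη)
    filter_upwards [hU (ε / 2) (by linarith), hr] with n h1 h2 z hz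
    have hzQ : z ∈ closedBall (0 : V m) ρ := hρK hz
    have hrz : ((rr (s n) : ℝ) : ℂ) • z ∈ closedBall (0 : V m) ρ := by
      rw [mem_closedBall_zero_iff] at hzQ ⊢
      rw [norm_rr]
      calc rr (s n) * ‖z‖ ≤ 1 * ‖z‖ :=
            mul_le_mul_of_nonneg_right (rr_lt _).le (norm_nonneg _)
        _ ≤ ρ := by rwa [one_mul]
    have hd : dist z (((rr (s n) : ℝ) : ℂ) • z) < η := by
      have e : z - ((rr (s n) : ℝ) : ℂ) • z = (((1 - rr (s n) : ℝ)) : ℂ) • z := by
        push_cast
        rw [sub_smul, one_smul]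
      rw [dist_eq_norm, e, norm_smul, Complex.norm_real, Real.norm_eq_abs,
        abs_of_nonneg (by have := rr_lt (s n); linarith)]
      have hz1 : ‖z‖ ≤ 1 := by
        have := hQsub hzQ
        rw [mem_ball_zero_iff] at this
        exact this.le
      calc (1 - rr (s n)) * ‖z‖ ≤ (1 - rr (s n)) * 1 :=
            mul_le_mul_of_nonneg_left hz1 (by have := rr_lt (s n); linarith)
        _ < η := by rwa [mul_one]
    calc dist (h i z) (hh (s n) i (((rr (s n) : ℝ) : ℂ) • z))
        ≤ dist (h i z) (h i (((rr (s n) : ℝ) : ℂ) • z)) +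
          dist (h i (((rr (s n) : ℝ) : ℂ) • z)) (hh (s n) i (((rr (s n) : ℝ) : ℂ) • z)) :=
          dist_triangle _ _ _
      _ < ε / 2 + ε / 2 := add_lt_add (hη2 z hzQ _ hrz hd) (h1 _ hrz)
      _ = ε := by ring

end Pool.Agent.W356.Ud.SepC
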