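import Pool.Agent.W732.Ud.Stm3

/-!
# UD2-SUMC: continuity of the sum of the peak functions
-/

set_option autoImplicit false

open Metric Set Filter Topology Complex

namespace Pool.Agent.W356.Ud.SumC

open Pool.Agent.W732.Ud

theorem main : S_sumc := by
  intro E _ _ Z P p h hP hP1 hp hu hh hh1 z₀ hz₀
  obtain ⟨r, hr1, hr2⟩ : ∃ r : ℝ, ‖P z₀‖ < r ∧ r < 1 := exists_between (hP1 z₀ hz₀)
  obtain ⟨u, hus, hub⟩ := hu r hr2
  have hmem : {z | ‖P z‖ < r} ∩ Z ∈ 𝓝[Z] z₀ := by
    refine inter_mem ?_ self_mem_nhdsWithin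
    have hc : ContinuousWithinAt (fun z => ‖P z‖) Z z₀ := (hP z₀ hz₀).norm
    exact hc.eventually_lt_const hr1
  have hcont : ContinuousOn (fun z => ∑' k, p k (P z) * h k z) ({z | ‖P z‖ < r} ∩ Z) := by
    refine continuousOn_tsum (u := u) (fun k => ?_) hus (fun k z hz => ?_)
    · refine ContinuousOn.mul ?_ ((hh k).mono inter_subset_right)
      refine (hp k).continuousOn.comp (hP.mono inter_subset_right) ?_
      intro z hz
      rw [mem_ball_zero_iff]
      exact hP1 z hz.2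
    · rw [norm_mul]
      refine (mul_le_of_le_one_right (norm_nonneg _) (hh1 k z hz.2)).trans ?_
      exact hub k _ (le_of_lt hz.1)
  have h1 : ContinuousWithinAt (fun z => ∑' k, p k (P z) * h k z) ({z | ‖P z‖ < r} ∩ Z) z₀ :=
    hcont z₀ ⟨hr1, hz₀⟩
  exact h1.mono_of_mem_nhdsWithin hmem

end Pool.Agent.W356.Ud.SumC
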